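import Pool.Agent.H37.CNS.Stmts

set_option autoImplicit false

namespace Pool.CND

namespace FUNaux

open Polynomial

theorem poly_ge {k L : Type} [Field k] [Field L] [Algebra k L] (P : Place k L) (t : L) (ht0 : t ≠ 0)
    (ht : 0 ≤ P.ord t) (q : Polynomial k) : P.Ge (aeval t q) 0 := by
  rw [aeval_eq_sum_range]
  apply P.ge_sum
  intro i _
  rw [Algebra.smul_def]
  have h1 := P.ge_mul (P.ge_const (q.coeff i)) (P.ge_ord (t ^ i))
  refine P.ge_mono h1 ?_
  rw [P.ord_pow ht0, zero_add]
  positivity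

theorem ord_poly {k L : Type} [Field k] [Field L] [Algebra k L] (P : Place k L) (t : L)
    (htr : Transcendental k t) (ht : 0 ≤ P.ord t) (a : k) (h0 : 0 < P.ord (t - algebraMap k L a))
    (q : Polynomial k) (hq : q ≠ 0) :
    aeval t q ≠ 0 ∧ ∃ m : ℤ, P.ord (aeval t q) = m * P.ord (t - algebraMap k L a) := by
  have ht0 : t ≠ 0 := by
    rintro rfl
    exact htr (isAlgebraic_zero)
  have hne : ∀ f : Polynomial k, f ≠ 0 → aeval t f ≠ 0 := fun f hf h => htr ⟨f, hf, h⟩
  refine ⟨hne q hq, ?_⟩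
  obtain ⟨r, hr, hnd⟩ := Polynomial.exists_eq_pow_rootMultiplicity_mul_and_not_dvd q hq a
  have hs : aeval t (X - C a) = t - algebraMap k L a := by
    rw [map_sub, aeval_X, aeval_C]
  have hs0 : t - algebraMap k L a ≠ 0 := by
    rw [← hs]
    exact hne _ (X_sub_C_ne_zero a)
  have hr0 : r ≠ 0 := by
    rintro rfl
    exact hnd (dvd_zero _)
  have hra : r.eval a ≠ 0 := fun h => hnd (dvd_iff_isRoot.2 h)
  obtain ⟨r', hr'⟩ : (X - C a) ∣ r - C (r.eval a) := by
    rw [dvd_iff_isRoot, IsRoot.def, eval_sub, eval_C, sub_self]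
  have hb : algebraMap k L (r.eval a) ≠ 0 := by
    rw [Ne, map_eq_zero]
    exact hra
  have hord : P.ord (aeval t r) = 0 := by
    have e1 : aeval t r = algebraMap k L (r.eval a) + (t - algebraMap k L a) * aeval t r' := by
      have := congrArg (aeval t) hr'
      rw [map_sub, aeval_C, map_mul, hs] at this
      rw [← this]
      ring
    have h2 : P.Ge ((t - algebraMap k L a) * aeval t r') (P.ord (algebraMap k L (r.eval a)) + 1) := by
      have h3 := P.ge_mul (P.ge_ord (t - algebraMap k L a)) (poly_ge P t ht0 ht r')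
      refine P.ge_mono h3 ?_
      rw [P.ord_const _ hra]
      omega
    rw [e1, (P.ord_add_of_lt hb h2).2, P.ord_const _ hra]
  refine ⟨(q.rootMultiplicity a : ℤ), ?_⟩
  rw [hr]
  simp only [map_mul, map_pow, hs]
  rw [P.ord_mul _ _ (pow_ne_zero _ hs0) (hne r hr0), P.ord_pow hs0, hord, add_zero, ← hr]

end FUNaux

open FUNaux Polynomial in
theorem fun_thm (hRMX : S_RMX) : S_FUN := by
  intro k L G _ _ _ _ _ _ ρ t P hcov ht
  have ht0 : t ≠ 0 := by
    rintro rfl
    exact hcov.trans (isAlgebraic_zero)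
  obtain ⟨w, hw0, hwf, hw1⟩ := hRMX k L G P ρ ⊤ ⊥ (by
    intro g
    constructor
    · intro hg
      rw [Subgroup.mem_bot] at hg
      subst hg
      refine ⟨Subgroup.mem_top _, ?_⟩
      rw [map_one]
      exact Fixes.one
    · rintro ⟨-, hg⟩
      rw [Subgroup.mem_bot]
      exact hcov.unram P ht g hg)
  have hcard : P.ord w = 1 := by
    rw [hw1, Subgroup.card_bot]
    rfl
  have hwt : w ∈ IntermediateField.adjoin k {t} :=
    (hcov.fixed w).1 (fun g => hwf g (Subgroup.mem_top g))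
  obtain ⟨c, hc | hc⟩ := P.residue t ht0 ht
  · exfalso
    apply hcov.trans
    rw [hc]
    exact isAlgebraic_algebraMap c
  · refine ⟨c, ?_⟩
    obtain ⟨r, s, hrs⟩ := (IntermediateField.mem_adjoin_simple_iff k w).1 hwt
    have hr : r ≠ 0 := by
      rintro rfl
      rw [map_zero, zero_div] at hrs
      exact hw0 hrs
    have hs : s ≠ 0 := by
      rintro rfl
      rw [map_zero, div_zero] at hrs
      exact hw0 hrs
    obtain ⟨hr1, m1, hm1⟩ := ord_poly P t hcov.trans ht c hc r hr
    obtain ⟨hs1, m2, hm2⟩ := ord_poly P t hcov.trans ht c hc s hs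
    have h1 : (m1 - m2) * P.ord (t - algebraMap k L c) = 1 := by
      rw [← hcard, hrs, P.ord_div hr1 hs1, hm1, hm2]
      ring
    have h2 : P.ord (t - algebraMap k L c) ∣ 1 := Dvd.intro_left _ h1
    exact Int.eq_one_of_dvd_one hc.le h2

end Pool.CND
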