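import Pool.Agent.H37.CNS.Stmts
import Pool.Agent.H23.CNS.FUN

/-!
# Row TWC of board `cns`: the twisted cover
-/

set_option autoImplicit false

namespace Pool.CND

namespace TWCaux

open Polynomial

/-- no solution of `v ^ p - v = c t` in `k(t)` -/
theorem no_sol {k L : Type} [Field k] [Field L] [Algebra k L] (p : ℕ) (hp : p.Prime) (t : L)
    (htr : Transcendental k t) (c : k) (hc : c ≠ 0) (v : L)
    (hv : v ∈ IntermediateField.adjoin k {t}) (heq : v ^ p - v = algebraMap k L c * t) :
    False := by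
  have hne : ∀ f : Polynomial k, aeval t f = 0 → f = 0 := by
    intro f hf
    by_contra h
    exact htr ⟨f, h, hf⟩
  obtain ⟨P, Q, hPQ⟩ := (IntermediateField.mem_adjoin_simple_iff k v).1 hv
  have ht0 : t ≠ 0 := by
    rintro rfl
    exact htr isAlgebraic_zero
  have hc' : algebraMap k L c ≠ 0 := by
    rw [Ne, map_eq_zero]
    exact hc
  by_cases hQ : Q = 0
  · rw [hQ, map_zero, div_zero] at hPQ
    rw [hPQ, zero_pow hp.ne_zero, sub_zero] at heq
    exact mul_ne_zero hc' ht0 heq.symm
  · have hQ' : aeval t Q ≠ 0 := fun h => hQ (hne Q h)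
    have h1 : P ^ p - P * Q ^ (p - 1) = (C c * X) * Q ^ p := by
      rw [← sub_eq_zero]
      apply hne
      rw [map_sub, map_sub, map_mul, map_mul, map_pow, map_pow, map_pow, map_mul, aeval_C, aeval_X,
        ← heq, hPQ]
      obtain ⟨q, hq⟩ : ∃ q, p = q + 1 := ⟨p - 1, by have := hp.pos; omega⟩
      rw [hq, show q + 1 - 1 = q from rfl, div_pow]
      generalize aeval t P = A
      generalize aeval t Q = B at hQ'
      have e1 : A ^ (q + 1) / B ^ (q + 1) * B ^ (q + 1) = A ^ (q + 1) :=
        div_mul_cancel₀ _ (pow_ne_zero _ hQ')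
      have e2 : A / B * B ^ (q + 1) = A * B ^ q := by
        rw [pow_succ', ← mul_assoc, div_mul_cancel₀ _ hQ']
      linear_combination -e1 + e2
    have hX : (C c * X : k[X]).natDegree = 1 := natDegree_C_mul_X c hc
    have hX0 : (C c * X : k[X]) ≠ 0 := by
      intro h0
      rw [h0, natDegree_zero] at hX
      omega
    have hR : ((C c * X) * Q ^ p : k[X]).natDegree = 1 + p * Q.natDegree := by
      rw [natDegree_mul hX0 (pow_ne_zero _ hQ), hX, natDegree_pow]
    have hM : (P * Q ^ (p - 1)).natDegree ≤ P.natDegree + (p - 1) * Q.natDegree := by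
      refine natDegree_mul_le.trans ?_
      rw [natDegree_pow]
    have hp1 := hp.one_lt
    obtain ⟨q, rfl⟩ : ∃ q, p = q + 2 := ⟨p - 2, by omega⟩
    have e1 : q + 2 - 1 = q + 1 := rfl
    rw [e1] at hM
    rcases lt_or_ge Q.natDegree P.natDegree with hlt | hge
    · have hL : (P ^ (q + 2) - P * Q ^ (q + 2 - 1)).natDegree = (q + 2) * P.natDegree := by
        rw [natDegree_sub_eq_left_of_natDegree_lt]
        · rw [natDegree_pow]
        · rw [natDegree_pow, e1]
          refine lt_of_le_of_lt hM ?_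
          nlinarith
      rw [h1, hR] at hL
      have h2 : (q + 2) * (P.natDegree - Q.natDegree) = 1 := by
        rw [Nat.mul_sub]; omega
      have := Nat.eq_one_of_mul_eq_one_right h2
      omega
    · have hL : (P ^ (q + 2) - P * Q ^ (q + 2 - 1)).natDegree ≤ (q + 2) * Q.natDegree := by
        refine (natDegree_sub_le _ _).trans (max_le ?_ ?_)
        · rw [natDegree_pow]; exact Nat.mul_le_mul_left _ hge
        · rw [e1]
          refine hM.trans ?_
          nlinarith
      rw [h1, hR] at hL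
      omega

theorem exists_alpha {k L G : Type} [Field k] [Infinite k] [Field L] [Algebra k L]
    [Group G] [Finite G] (p : ℕ) (ρ : G →* (L ≃ₐ[k] L)) (t r : L) (hp : p.Prime)
    (hchar : CharP k p) (hcov : IsCover ρ t) :
    ∃ α : k, ∀ u : L, u ^ p - u ≠ r + algebraMap k L α * t := by
  by_contra hcon
  push Not at hcon
  choose u hu using hcon
  have : Fact p.Prime := ⟨hp⟩
  have : CharP L p := charP_of_injective_algebraMap (algebraMap k L).injective p
  have ht : ∀ g : G, ρ g t = t :=
    (hcov.fixed t).mpr (IntermediateField.mem_adjoin_simple_self k t)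
  have hR : {x : L | x ^ p - x = 0}.Finite := by
    have h0 : (X ^ p - X : L[X]) ≠ 0 := FiniteField.X_pow_card_sub_X_ne_zero L hp.one_lt
    refine (Polynomial.finite_setOfPred_isRoot h0).subset ?_
    intro x hx
    simp only [Set.mem_ofPred_eq] at hx ⊢
    simp [IsRoot.def, hx]
  have e : ℕ ↪ k := Infinite.natEmbedding k
  obtain ⟨v, hv⟩ : ∃ v : ℕ → L, v = fun n => u (e n) := ⟨_, rfl⟩
  have hv1 : ∀ n, v n ^ p - v n = r + algebraMap k L (e n) * t := by
    intro n
    rw [hv]
    exact hu (e n)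
  have hmem : ∀ n, (fun g : G => ρ g (v n) - v n - (ρ g (v 0) - v 0)) ∈
      Set.pi Set.univ (fun _ : G => {x : L | x ^ p - x = 0}) := by
    intro n g _
    show (ρ g (v n) - v n - (ρ g (v 0) - v 0)) ^ p - (ρ g (v n) - v n - (ρ g (v 0) - v 0)) = 0
    have h1 := congrArg (ρ g) (hv1 n)
    have h2 := congrArg (ρ g) (hv1 0)
    rw [map_sub, map_pow, map_add, map_mul, ht g, AlgEquiv.commutes] at h1 h2
    rw [sub_pow_char, sub_pow_char, sub_pow_char]
    linear_combination h1 - hv1 n - (h2 - hv1 0)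
  obtain ⟨n, m, hnm, hEq⟩ := Set.Finite.exists_lt_map_eq_of_forall_mem hmem
    (Set.Finite.pi fun _ => hR)
  have hfix : ∀ g : G, ρ g (v m - v n) = v m - v n := by
    intro g
    have h1 : ρ g (v n) - v n - (ρ g (v 0) - v 0) = ρ g (v m) - v m - (ρ g (v 0) - v 0) :=
      congrFun hEq g
    rw [map_sub]
    linear_combination -h1
  have hin := (hcov.fixed _).mp hfix
  have hw : (v m - v n) ^ p - (v m - v n) = algebraMap k L (e m - e n) * t := by
    rw [sub_pow_char, map_sub]
    linear_combination hv1 m - hv1 n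
  refine no_sol p hp t hcov.trans (e m - e n) ?_ _ hin hw
  intro h
  exact hnm.ne' (e.injective (sub_eq_zero.1 h))

theorem fp_add {p : ℕ} (k : Type) [Field k] [CharP k p] (a b : ZMod p) :
    fp k (a + b) = fp k a + fp k b := map_add _ a b

theorem fp_mul {p : ℕ} (k : Type) [Field k] [CharP k p] (a b : ZMod p) :
    fp k (a * b) = fp k a * fp k b := map_mul _ a b

theorem fp_sum {p m : ℕ} (k : Type) [Field k] [CharP k p] (a : Fin m → ZMod p) :
    fp k (∑ i, a i) = ∑ i, fp k (a i) := map_sum (ZMod.castHom (dvd_refl p) k) a _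

theorem fp_pow {p : ℕ} (hp : p.Prime) (k : Type) [Field k] [CharP k p] (a : ZMod p) :
    fp k a ^ p = fp k a := by
  have : Fact p.Prime := ⟨hp⟩
  unfold fp
  rw [← map_pow, ZMod.pow_card]

theorem fp_zero {p : ℕ} (k : Type) [Field k] [CharP k p] : fp k (0 : ZMod p) = 0 := map_zero _

theorem fp_one {p : ℕ} (k : Type) [Field k] [CharP k p] : fp k (1 : ZMod p) = 1 := map_one _

theorem reg_as {k L : Type} [Field k] [Field L] [Algebra k L] (P : Place k L) (p : ℕ)
    (hp : p.Prime) (Y s : L) (h : Y ^ p - Y = s) (hs : P.Ge s 0) : P.Ge Y 0 := by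
  by_contra hY
  have hY0 : Y ≠ 0 := fun h0 => hY (Or.inl h0)
  have hY1 : P.ord Y < 0 := by
    by_contra h1
    exact hY (Or.inr (not_lt.1 h1))
  have hpow : P.ord (Y ^ p) = p * P.ord Y := P.ord_pow hY0 p
  have hp2 : (2 : ℤ) ≤ p := by exact_mod_cast hp.two_le
  have h2 : P.Ge (-Y) (P.ord (Y ^ p) + 1) := by
    refine P.ge_mono (P.ge_neg (P.ge_ord Y)) ?_
    rw [hpow]
    nlinarith
  obtain ⟨h3, h4⟩ := P.ord_add_of_lt (pow_ne_zero p hY0) h2
  rw [← sub_eq_add_neg, h] at h3 h4
  rcases hs with hs | hs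
  · exact h3 hs
  · rw [h4, hpow] at hs
    nlinarith

end TWCaux

open TWCaux Finset in
theorem twc_thm (hCGA : S_CGA) (hCUN : S_CUN) : S_TWC := by
  intro p m k L G G' _ _ _ _ _ _ _ _ _ ρ t x y X Y f h π z γ hp H
  have : Fact p.Prime := ⟨hp⟩
  have hchar : CharP k p := inferInstance
  have : CharP L p := charP_of_injective_algebraMap (algebraMap k L).injective p
  have : Infinite k := IsAlgClosed.instInfinite
  have hcov := H.cov
  have ht : ∀ g : G, ρ g t = t :=
    (hcov.fixed t).mpr (IntermediateField.mem_adjoin_simple_self k t)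
  have hft : ∀ (g : G) (q : Polynomial k), ρ g (Polynomial.aeval t q) = Polynomial.aeval t q := by
    intro g q
    have h1 : (ρ g : L →ₐ[k] L) (Polynomial.aeval t q) = Polynomial.aeval ((ρ g : L →ₐ[k] L) t) q :=
      (Polynomial.aeval_algHom_apply _ _ _).symm
    have h2 : (ρ g : L →ₐ[k] L) t = t := ht g
    rw [h2] at h1
    exact h1
  have hπz : π z = 1 := (H.ker z).2 (Subgroup.mem_zpowers z)
  have hn : (Subgroup.zpowers z).Normal := by
    constructor
    intro n hn g
    rw [← H.ker] at hn ⊢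
    rw [map_mul, map_mul, hn, mul_one, ← map_mul, mul_inv_cancel, map_one]
  obtain ⟨τ, hτ⟩ : ∃ τ : (G' ⧸ Subgroup.zpowers z) →* G, ∀ g : G',
      τ (g : G' ⧸ Subgroup.zpowers z) = π g :=
    ⟨QuotientGroup.lift (Subgroup.zpowers z) π (fun a ha => (H.ker a).2 ha), fun g => rfl⟩
  have hτinj : ∀ q : G' ⧸ Subgroup.zpowers z, τ q = 1 → q = 1 := by
    intro q
    induction q using QuotientGroup.induction_on with
    | H g =>
      intro hq
      rw [hτ] at hq
      exact (QuotientGroup.eq_one_iff g).2 ((H.ker g).1 hq)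
  have hτsurj : ∀ g : G, ∃ q : G' ⧸ Subgroup.zpowers z, τ q = g := by
    intro g
    obtain ⟨a, ha⟩ := H.surj g
    exact ⟨(a : G' ⧸ Subgroup.zpowers z), by rw [hτ, ha]⟩
  obtain ⟨ρq, hρq⟩ : ∃ ρq : (G' ⧸ Subgroup.zpowers z) →* (L ≃ₐ[k] L), ∀ q, ρq q = ρ (τ q) :=
    ⟨ρ.comp τ, fun q => rfl⟩
  have hρq' : ∀ g : G', ρq (g : G' ⧸ Subgroup.zpowers z) = ρ (π g) := by
    intro g
    rw [hρq, hτ]
  have hcovq : IsCover ρq t := by
    refine ⟨?_, hcov.trans, ?_, ?_⟩
    · rw [injective_iff_map_eq_one]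
      intro q hq
      rw [hρq] at hq
      exact hτinj q ((injective_iff_map_eq_one ρ).1 hcov.inj _ hq)
    · intro w
      rw [← hcov.fixed]
      constructor
      · intro hw g
        obtain ⟨q, hq⟩ := hτsurj g
        have := hw q
        rwa [hρq, hq] at this
      · intro hw q
        rw [hρq]
        exact hw _
    · intro P hP q hq
      rw [hρq] at hq
      exact hτinj q (hcov.unram P hP _ hq)
  obtain ⟨α, hα⟩ := exists_alpha p ρ t (∑ i, Y i * Polynomial.aeval t (f i)) hp hchar hcov
  obtain ⟨b, hb⟩ : ∃ b : G' → L, ∀ a, b a = ∑ i, algebraMap k L (fp k (y i (π a))) * X i +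
      algebraMap k L (fp k (γ a)) := ⟨_, fun a => rfl⟩
  obtain ⟨r, hr⟩ : ∃ r : L, r = ∑ i, Y i * Polynomial.aeval t (f i) + algebraMap k L α * t :=
    ⟨_, rfl⟩
  have hcoc : ∀ g g' : G', b (g * g') = b g + ρq (g : G' ⧸ Subgroup.zpowers z) (b g') := by
    intro g g'
    rw [hρq', hb, hb, hb, map_add, map_sum, AlgEquiv.commutes, H.γ_mul, map_mul π, fp_add, fp_add,
      fp_sum, map_add, map_add, map_sum]
    have e1 : ∀ i, ρ (π g) (algebraMap k L (fp k (y i (π g'))) * X i) =
        algebraMap k L (fp k (y i (π g'))) * X i +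
          algebraMap k L (fp k (x i (π g) * y i (π g'))) := by
      intro i
      rw [map_mul, AlgEquiv.commutes, H.X_act, fp_mul, map_mul]
      ring
    have e2 : ∀ i, algebraMap k L (fp k (y i (π g * π g'))) * X i =
        algebraMap k L (fp k (y i (π g))) * X i + algebraMap k L (fp k (y i (π g'))) * X i := by
      intro i
      rw [H.y_mul, fp_add, map_add]
      ring
    simp only [e1, e2, Finset.sum_add_distrib]
    ring
  have hbz : b z = 1 := by
    have hy : ∀ i, y i 1 = 0 := by
      intro i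
      have := H.y_mul i 1 1
      rw [mul_one] at this
      exact left_eq_add.1 this
    rw [hb, hπz, H.γ_z, fp_one, map_one]
    simp only [hy, fp_zero, map_zero, zero_mul, Finset.sum_const_zero, zero_add]
  have hbr : ∀ g : G', ρq (g : G' ⧸ Subgroup.zpowers z) r - r = b g ^ p - b g := by
    intro g
    rw [hρq', hr, hb, map_add, map_sum, map_mul, AlgEquiv.commutes, ht, add_pow_char,
      sum_pow_char]
    have e1 : ∀ i, ρ (π g) (Y i * Polynomial.aeval t (f i)) =
        Y i * Polynomial.aeval t (f i) +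
          algebraMap k L (fp k (y i (π g))) * Polynomial.aeval t (f i) := by
      intro i
      rw [map_mul, hft, H.Y_act]
      ring
    have e2 : ∀ i, (algebraMap k L (fp k (y i (π g))) * X i) ^ p =
        algebraMap k L (fp k (y i (π g))) * X i +
          algebraMap k L (fp k (y i (π g))) * Polynomial.aeval t (f i) := by
      intro i
      rw [mul_pow, ← map_pow, fp_pow hp, ← H.X_eq]
      ring
    simp only [e1, e2, Finset.sum_add_distrib]
    rw [← map_pow, fp_pow hp]
    ring
  have hreg : Reg k t r := by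
    intro P hP
    have ht0 : t ≠ 0 := by
      rintro rfl
      exact hcov.trans isAlgebraic_zero
    have h1 : P.Ge r 0 := by
      rw [hr]
      apply P.ge_add
      · apply P.ge_sum
        intro i _
        have h2 := P.ge_mul (reg_as P p hp (Y i) _ (H.Y_eq i) (FUNaux.poly_ge P t ht0 hP (h i)))
          (FUNaux.poly_ge P t ht0 hP (f i))
        rwa [zero_add] at h2
      · have h2 := P.ge_mul (P.ge_const α) (P.ge_ord t)
        rw [zero_add] at h2
        exact P.ge_mono h2 hP
    exact h1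
  have hno : ∀ u : L, u ^ p - u ≠ r := by
    intro u
    rw [hr]
    exact hα u
  obtain ⟨L', i1, i2, j, Z, ρ', hZ, heq, hρZ, hinj, hfix⟩ :=
    hCGA p k L G' z ρq b r hp hchar H.order hcovq.inj hcoc hbz hbr hno
  refine ⟨L', i1, i2, ρ', j, Z, α, ?_, ⟨H.surj, ?_, ?_⟩, ?_, ?_⟩
  · exact hCUN p k L L' G' z ρq b r t j Z ρ' hp hchar H.order hcovq hreg hcoc hbz hZ heq hρZ hinj
      hfix
  · intro g w
    rw [heq, hρq']
  · intro w hw
    exact hfix w (hw z hπz)
  · rw [hZ, hr]
  · intro a
    rw [hρZ, hb, map_add, AlgHom.commutes, add_assoc]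

end Pool.CND
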